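import Pool.Agent.H121R3.Main

/-!
# The second order theta constant map is not an embedding for any genus `g ≥ 4`

`H121R3.siegel g` is the Siegel upper half space, `H121R3.Gam24 g` the group `Γ_g(2,4)`,
`H121R3.act` its action `τ ↦ (aτ+b)(cτ+d)⁻¹`, `H121R3.Theta g τ` the vector of the `2^g` second
order theta constants. `H121R3.LocalIsoAt g τ₀` says that the map `Th` is surjective on the local
rings at the point `[τ₀]` of `A_g(2,4) = ℍ_g / Γ_g(2,4)`, a condition necessary for `Th` to be an
isomorphism of analytic spaces onto its image near `[τ₀]`.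

The point used is the product point with two diagonal blocks of size at least two; the function
`τ₁₃ τ₂₄ - τ₁₄ τ₂₃` is invariant near it, but by the heat equation for theta functions it is not a
differentiable function of the theta constants.
-/

namespace Pool.Agent.Results.MP_2bf81a_ag.NotEmbedding

open H121R3

theorem result :
    (∀ g : ℕ, 4 ≤ g → ∃ τ₀ ∈ siegel g, ¬ LocalIsoAt g τ₀) ∧ ¬ ∀ g : ℕ, 1 ≤ g → ThEmbedding g := by
  refine ⟨fun g hg => main hg, fun h => ?_⟩
  obtain ⟨τ₀, h1, h2⟩ := main (le_refl 4)
  exact h2 ((h 4 (by norm_num)).2 τ₀ h1)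

end Pool.Agent.Results.MP_2bf81a_ag.NotEmbedding
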